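import Pool.Agent.N71.SP.EndA
import Pool.Agent.N564.SP.AVG
import Pool.Agent.N556.SP.FIN2
import Pool.Agent.N519.SP.PAR
import Pool.Agent.N386.SP.NUM
import Pool.Agent.N704.SP.PAR2
import Pool.Agent.N614.SP.LOW

set_option autoImplicit false

/-!
# Sparse sets of primes: assembly
-/

namespace Pool.Agent.N71.SP

theorem tA : E_A := t_A Pool.Agent.N564.SP.t_AVG Pool.Agent.N519.SP.t_PAR Pool.Agent.N386.SP.t_NUM

theorem tB : E_B := Pool.Agent.N556.SP.t_B Pool.Agent.N386.SP.t_NUM Pool.Agent.N614.SP.t_LOW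
  Pool.Agent.N519.SP.t_PAR Pool.Agent.N704.SP.t_PAR2

end Pool.Agent.N71.SP
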