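import Pool.Agent.N71.SP.FinA
import Pool.Agent.R345.IXEnd

/-!
# Project SP: end of part A
-/

set_option autoImplicit false

namespace Pool.Agent.N71.SP

open Finset Filter NumberField Pool.Agent.H38R2.CG Pool.Agent.H38R2.CG2
open Pool.Agent.R345.IX (Dof isFund_Dof dyadic)
open scoped Classical

/-- **Part A.** All but `O(X^(1-δ))` radicands up to X are good. -/
theorem t_A (hAVG : E_AVG) (hPAR : E_PAR) (hNUM : E_NUM) : E_A := by
  intro P σ hσ0 hσ1 hP a ha ε hε
  have h_P_N0 : P_N0 := T_N0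
  have h_P_N0d : P_N0d := T_N0d
  have h_P_SPL : P_SPL := T_SPL h_P_N0
  have h_P_N2 : P_N2 := T_N2 h_P_SPL
  have h_P_KR : P_KR := T_KR
  have h_P_PV : P_PV := T_PV
  have h_P_N3a : P_N3a := T_N3a h_P_KR h_P_PV
  have h_P_N3b : P_N3b := T_N3b h_P_KR h_P_PV h_P_N3a
  have h_P_N3 : P_N3 := T_N3 h_P_N2 h_P_N3b
  have ha0 : 0 < a := by
    by_contra h
    push Not at h
    nlinarith
  set θ0 : ℝ := (2 - a * (2 * σ - 1)) / (2 * (a * (1 + σ) - 1)) with hθ0
  have hden : 0 < 2 * (a * (1 + σ) - 1) := by nlinarith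
  set θ : ℝ := max 0 θ0 with hθ
  have hθnn : 0 ≤ θ := le_max_left _ _
  have hθhalf : θ ≤ 1 / 2 := by
    apply max_le (by norm_num)
    rw [hθ0, div_le_iff₀ hden]
    nlinarith
  set c : ℝ := 1 + θ with hc
  have hc1 : 1 / 2 ≤ c := by linarith
  have hc2 : c ≤ 3 / 2 := by linarith
  have hmain : 1 / 2 - c * (σ - 1 / a) ≤ θ := by
    have hs : 0 < σ - 1 / a := by
      rw [sub_pos, div_lt_iff₀ ha0]
      linarith
    have key : θ0 * (2 * (a * (1 + σ) - 1)) = 2 - a * (2 * σ - 1) := by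
      rw [hθ0, div_mul_cancel₀ _ hden.ne']
    -- 1/2 - (1+θ)(σ-1/a) ≤ θ iff 1/2 - (σ - 1/a) ≤ θ (1 + σ - 1/a)
    have h1 : 1 / 2 - (σ - 1 / a) = θ0 * (1 + (σ - 1 / a)) := by
      have ha' : a ≠ 0 := ha0.ne'
      field_simp
      linarith
    have h2 : θ0 * (1 + (σ - 1 / a)) ≤ θ * (1 + (σ - 1 / a)) :=
      mul_le_mul_of_nonneg_right (le_max_right _ _) (by linarith)
    have h3 : c * (σ - 1 / a) = (σ - 1 / a) + θ * (σ - 1 / a) := by rw [hc]; ring
    rw [h3]
    linarith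
  have hσle : 1 < a := by nlinarith
  obtain ⟨δ, hδ, hδ2, X0, hX0⟩ := count_bad hAVG hPAR hNUM h_P_N3 h_P_N3a h_P_PV P σ hσ0 hσ1 hP a
    ha c θ hc1 hc2 hθnn hmain (by rw [hc]; linarith) (ε / 2) (by positivity)
  obtain ⟨X1, hX1⟩ := Filter.eventually_atTop.1
    (hPAR P σ hσ0 hσ1 hP a c ha hc1 hc2 1 1 one_pos le_rfl)
  obtain ⟨X2, hX2⟩ := Filter.eventually_atTop.1
    (ERRh.ev_const (ε / 2) (by positivity) ((4 : ℝ) ^ (θ + ε / 2)))
  -- a bad radicand gives a bad discriminant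
  have key : ∀ Y : ℕ, X0 ≤ Y → X1 ≤ Y → X2 ≤ Y → 1 ≤ Y → ∀ d : ℕ, Y < d → d ≤ 2 * Y →
      Squarefree d → ¬ GoodS P a (θ + ε) d → ∀ X : ℕ, X1 ≤ X → X ≤ 4 * d → d ≤ 2 * X →
      X ≤ 4 * Y →
      IsFund (Dof d) ∧ BadS P a c (θ + ε / 2) X (Dof d) := by
    intro Y _ _ hY2 hY1 d hd1 hd2 hsq hbad X hXX1 hX4 hdX hX4Y
    have hd : 1 < d := by omega
    refine ⟨isFund_Dof hd hsq, ?_⟩
    unfold GoodS at hbad
    push Not at hbad
    obtain ⟨K, i1, i2, h2, hx, hlt⟩ := hbad
    refine ⟨K, i1, i2, h2, ?_, ?_⟩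
    · rw [h_P_N0d K d hd hsq h2 hx]
      unfold Dof
      split_ifs <;> push_cast <;> rfl
    · intro hle
      refine absurd hle (not_le.2 (lt_of_le_of_lt ?_ hlt))
      have hdr : (0 : ℝ) < d := by
        have : 0 < d := by omega
        exact_mod_cast this
      obtain ⟨-, -, -, -, -, -, -, -, -, hfin⟩ := hX1 X hXX1
      obtain ⟨g1, g2⟩ := hfin d (by
        have : (X : ℝ) ≤ 4 * d := by exact_mod_cast hX4
        linarith) (by exact_mod_cast hdX)
      have hsub : Reach P K ((2 * yS a X : ℕ) : ℝ) (kS a c X) ⊆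
          Reach P K ((Real.log d) ^ a) (3 / 2 * (Real.log d / Real.log (Real.log d))) :=
        reach_mono (by push_cast; exact g1) g2
      have hcard : ((Reach P K ((2 * yS a X : ℕ) : ℝ) (kS a c X)).ncard : ℝ) ≤
          ((Reach P K ((Real.log d) ^ a)
            (3 / 2 * (Real.log d / Real.log (Real.log d)))).ncard : ℝ) := by
        exact_mod_cast Set.ncard_le_ncard hsub (Set.toFinite _)
      have hpow : (X : ℝ) ^ (θ + ε / 2) ≤ (d : ℝ) ^ (θ + ε) := by
        have h4d : (4 : ℝ) ^ (θ + ε / 2) ≤ (d : ℝ) ^ (ε / 2) := hX2 d (by omega)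
        calc (X : ℝ) ^ (θ + ε / 2) ≤ (4 * (d : ℝ)) ^ (θ + ε / 2) := by
              apply Real.rpow_le_rpow (Nat.cast_nonneg _) _ (by positivity)
              exact_mod_cast hX4
          _ = (4 : ℝ) ^ (θ + ε / 2) * (d : ℝ) ^ (θ + ε / 2) :=
              Real.mul_rpow (by norm_num) hdr.le
          _ ≤ (d : ℝ) ^ (ε / 2) * (d : ℝ) ^ (θ + ε / 2) := by gcongr
          _ = (d : ℝ) ^ (θ + ε) := by
              rw [← Real.rpow_add hdr]
              congr 1
              ring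
      exact mul_le_mul hpow hcard (Nat.cast_nonneg _) (by positivity)
  have hdy := dyadic (fun S => (S.filter (fun d => Squarefree d ∧ ¬ GoodS P a (θ + ε) d)).card)
    (fun d => Squarefree d ∧ ¬ GoodS P a (θ + ε) d) (fun S => by congr) δ hδ hδ2
    (max (max X0 X1) (max X2 1)) (by
      intro Y hY
      have hY0 : X0 ≤ Y := le_trans (le_trans (le_max_left _ _) (le_max_left _ _)) hY
      have hY1 : X1 ≤ Y := le_trans (le_trans (le_max_right _ _) (le_max_left _ _)) hY
      have hY2 : X2 ≤ Y := le_trans (le_trans (le_max_left _ _) (le_max_right _ _)) hY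
      have hY3 : 1 ≤ Y := le_trans (le_trans (le_max_right _ _) (le_max_right _ _)) hY
      have hYr : (0 : ℝ) < Y := by exact_mod_cast hY3
      set S := (Finset.Ioc Y (2 * Y)).filter (fun d => Squarefree d ∧ ¬ GoodS P a (θ + ε) d) with hS
      set A := (Finset.Ioc Y (2 * Y)).filter (fun D => IsFund D ∧ BadS P a c (θ + ε / 2) Y D)
        with hA
      set B := (Finset.Ioc (4 * Y) (2 * (4 * Y))).filter
        (fun D => IsFund D ∧ BadS P a c (θ + ε / 2) (4 * Y) D) with hB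
      have hA' := hX0 Y hY0
      have hB' := hX0 (4 * Y) (by omega)
      have hinj : S.card ≤ (A ∪ B).card := by
        refine Finset.card_le_card_of_injOn Dof ?_ ?_
        · intro d hd
          rw [Finset.mem_coe] at hd ⊢
          obtain ⟨h1, h2, h3⟩ := Finset.mem_filter.1 hd
          obtain ⟨h4, h5⟩ := Finset.mem_Ioc.1 h1
          rw [Finset.mem_union]
          by_cases h : d % 4 = 1
          · left
            have hDof : Dof d = d := by unfold Dof; rw [if_pos h]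
            have hk := key Y hY0 hY1 hY2 hY3 d h4 h5 h2 h3 Y hY1 (by omega) (by omega) (by omega)
            rw [hA, Finset.mem_filter, Finset.mem_Ioc]
            exact ⟨by rw [hDof]; exact ⟨h4, h5⟩, hk⟩
          · right
            have hDof : Dof d = 4 * d := by unfold Dof; rw [if_neg h]
            have hk := key Y hY0 hY1 hY2 hY3 d h4 h5 h2 h3 (4 * Y) (by omega) (by omega)
              (by omega) (by omega)
            rw [hB, Finset.mem_filter, Finset.mem_Ioc]
            exact ⟨by rw [hDof]; omega, hk⟩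
        · intro d _ d' _ hdd
          unfold Dof at hdd
          split_ifs at hdd <;> omega
      have h1 : (S.card : ℝ) ≤ A.card + B.card := by
        exact_mod_cast hinj.trans (Finset.card_union_le _ _)
      have h4Y : (((4 * Y : ℕ) : ℝ)) ^ (1 - δ) ≤ 4 * (Y : ℝ) ^ (1 - δ) := by
        push_cast
        rw [Real.mul_rpow (by norm_num) hYr.le]
        apply mul_le_mul_of_nonneg_right _ (by positivity)
        calc (4 : ℝ) ^ (1 - δ) ≤ (4 : ℝ) ^ (1 : ℝ) :=
              Real.rpow_le_rpow_of_exponent_le (by norm_num) (by linarith)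
          _ = 4 := Real.rpow_one 4
      show ((S.card : ℕ) : ℝ) ≤ 5 * (Y : ℝ) ^ (1 - δ)
      linarith)
  obtain ⟨C, hC, hfin⟩ := hdy
  exact ⟨δ, C, hδ, hC, hfin⟩

end Pool.Agent.N71.SP
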