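import Pool.Agent.N71.SP.Stm
import Pool.Agent.R345.IXEnd

/-!
# Project SP: few discriminants for which products of small primes of `P` reach few ideal classes
-/

set_option autoImplicit false

namespace Pool.Agent.N71.SP

open Finset Filter NumberField Pool.Agent.H38R2.CG Pool.Agent.H38R2.CG2
open Pool.Agent.R345.IX (SD_nonneg DD_card_le floor_two Qz_two low_set MD_low Lone_le)
open scoped Classical

/-- the exceptional discriminants -/
def BadS (P : Set ℕ) (a c e : ℝ) (X D : ℕ) : Prop :=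
  ∃ (K : Type) (_ : Field K) (_ : NumberField K),
  Module.finrank ℚ K = 2 ∧ NumberField.discr K = (D : ℤ) ∧
    ¬ ((Nat.card (ClassGroup (𝓞 K)) : ℝ) ≤
      (X : ℝ) ^ e * ((Reach P K (2 * yS a X : ℕ) (kS a c X)).ncard : ℝ))

/-- number of the discriminants with a large near collision sum -/
theorem high_card (hAVG : E_AVG) (r X k Z : ℕ) (hr : r < Qz 2) (hX : 1 ≤ X) (hZ : 1 ≤ Z)
    (S : Finset (Finset ℕ))
    (hS : ∀ s ∈ S, (∀ p ∈ s, p.Prime) ∧ s.card = k ∧ prodS s ≤ Z) (T : ℝ) (hT : 0 < T)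
    (hc : 0 < S.card) :
    (((DD 2 r X 1).filter (fun D => T * ((S.card : ℝ) + (S.card : ℝ) ^ 2 *
      (√(X : ℝ) + Z / √(X : ℝ)) / X) <
      SD D S (fun _ => 1))).card : ℝ) ≤ 1024 * 8 ^ k * (2 + Real.log Z) * X / T := by
  have hXr : (1 : ℝ) ≤ X := by exact_mod_cast hX
  have hX0 : (0 : ℝ) < X := by linarith
  have hsX : 0 < √(X : ℝ) := Real.sqrt_pos.2 hX0
  have hM : (0 : ℝ) < S.card := by exact_mod_cast hc
  have hZr : (0 : ℝ) < Z := by exact_mod_cast hZ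
  set M : ℝ := (S.card : ℝ) with hMdef
  set A : ℝ := M + M ^ 2 * (√(X : ℝ) + Z / √(X : ℝ)) / X with hA
  have hA0 : 0 < A := by positivity
  set Bd := (DD 2 r X 1).filter (fun D => T * A < SD D S (fun _ => 1)) with hBd
  have h1 := hAVG r X k Z hr hX hZ S hS
  have h2 : (Bd.card : ℝ) * (T * A) ≤ ∑ D ∈ DD 2 r X 1, SD D S (fun _ => 1) := by
    calc (Bd.card : ℝ) * (T * A) = ∑ D ∈ Bd, (T * A) := by rw [Finset.sum_const, nsmul_eq_mul]
      _ ≤ ∑ D ∈ Bd, SD D S (fun _ => 1) :=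
          Finset.sum_le_sum fun D hD => (Finset.mem_filter.1 hD).2.le
      _ ≤ _ := Finset.sum_le_sum_of_subset_of_nonneg (Finset.filter_subset _ _)
          fun D _ _ => SD_nonneg D S
  have h3 : X * M + (√(X : ℝ) + Z / √(X : ℝ)) * M ^ 2 = X * A := by
    rw [hA, mul_add]
    congr 1
    field_simp
  rw [h3] at h1
  rw [le_div_iff₀ hT]
  have h4 : ((Bd.card : ℝ) * T) * A ≤ (1024 * 8 ^ k * (2 + Real.log Z) * X) * A := by
    calc ((Bd.card : ℝ) * T) * A = (Bd.card : ℝ) * (T * A) := by ring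
      _ ≤ _ := h2.trans h1
      _ = _ := by ring
  exact le_of_mul_le_mul_right h4 hA0

/-- the primes in `QQ P y` -/
theorem QQ_mem {P : Set ℕ} {y p : ℕ} (hy : 2 ≤ y) (hp : p ∈ QQ P y) :
    p.Prime ∧ p ≠ 2 ∧ p ∈ P ∧ p ≤ 2 * y := by
  unfold QQ at hp
  rw [Finset.mem_filter, Finset.mem_Ioc] at hp
  exact ⟨hp.2.1, by omega, hp.2.2, hp.1.2⟩

/-- the deterministic part: a discriminant outside of the two exceptional sets is not bad -/
theorem not_bad (hNUM : E_NUM) (hN3 : P_N3) (P : Set ℕ) (a c σ θ η C : ℝ) (hC : 0 < C)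
    (hLone : ∀ D : ℕ, IsFund D → Lone D ≤ C * (1 + Real.log D))
    (hθ0 : 0 ≤ θ) (hθ : 1 / 2 - c * (σ - 1 / a) ≤ θ) (hcθ : c - 1 ≤ θ) (hη : 0 < η)
    (X D Z : ℕ) (hD : IsFund D)
    (hDX : D ≤ 2 * X) (hX : 1 ≤ X) (hy : 2 ≤ yS a X) (hZ : (Z : ℝ) ≤ (X : ℝ) ^ c)
    (hB : (400 : ℝ) ^ (kS a c X) ≤ (X : ℝ) ^ η)
    (h20 : 20 * kS a c X ≤ (QQ P (yS a X)).card)
    (hM : (X : ℝ) ^ (c * (σ - 1 / a) - η) ≤ ((QQ P (yS a X)).card.choose (kS a c X) : ℝ))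
    (hL2 : C * (2 + Real.log X) ≤ (X : ℝ) ^ η) (h8 : 12 ≤ (X : ℝ) ^ η)
    (hlow : ((QQ P (yS a X)).card : ℝ) / 5 ≤
      ∑ p ∈ QQ P (yS a X), (1 + ((jacobiSym (D : ℤ) p : ℤ) : ℝ)))
    (hhigh : SD D ((QQ P (yS a X)).powersetCard (kS a c X)) (fun _ => 1) ≤ (X : ℝ) ^ (4 * η) *
      (((QQ P (yS a X)).card.choose (kS a c X) : ℝ) +
        ((QQ P (yS a X)).card.choose (kS a c X) : ℝ) ^ 2 *
          (√(X : ℝ) + Z / √(X : ℝ)) / X)) :
    ¬ BadS P a c (θ + 8 * η) X D := by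
  rintro ⟨K, i1, i2, h2, hK, hne⟩
  apply hne
  have hXr : (1 : ℝ) ≤ X := by exact_mod_cast hX
  have hX0 : (0 : ℝ) < X := by linarith
  have hsX : 0 < √(X : ℝ) := Real.sqrt_pos.2 hX0
  have hXX : √(X : ℝ) * √(X : ℝ) = X := Real.mul_self_sqrt hX0.le
  have hlogX : 0 ≤ Real.log X := Real.log_natCast_nonneg X
  set Q := QQ P (yS a X) with hQ
  set k := kS a c X with hk
  set M : ℝ := (Q.card.choose k : ℝ) with hMdef
  have hPm : ∀ p ∈ Q, p.Prime ∧ p ≠ 2 ∧ p ∈ P ∧ (p : ℝ) ≤ ((2 * yS a X : ℕ) : ℝ) := by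
    intro p hp
    obtain ⟨h1, h2, h3, h4⟩ := QQ_mem hy hp
    exact ⟨h1, h2, h3, by exact_mod_cast h4⟩
  have hR := hNUM P K D hD h2 hK Q ((2 * yS a X : ℕ) : ℝ) hPm k
  have hMD := MD_low D Q (fun p hp => ⟨(hPm p hp).1, (hPm p hp).2.1⟩) k h20 hlow
  set R : ℝ := ((Reach P K ((2 * yS a X : ℕ) : ℝ) k).ncard : ℝ) with hRdef
  set h : ℝ := (Nat.card (ClassGroup (𝓞 K)) : ℝ) with hh
  set md := MD D (Q.powersetCard k) (fun _ => 1) with hmd
  set sd := SD D (Q.powersetCard k) (fun _ => 1) with hsd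
  have hR0 : 0 ≤ R := Nat.cast_nonneg _
  have hh0 : 0 ≤ h := Nat.cast_nonneg _
  have hM0 : 0 < M := lt_of_lt_of_le (Real.rpow_pos_of_pos hX0 _) hM
  have hsd0 : 0 ≤ sd := SD_nonneg D _
  have hD1 : 1 < D := hD.1
  have hDr : (1 : ℝ) < D := by exact_mod_cast hD1
  have hDX' : (D : ℝ) ≤ 2 * X := by exact_mod_cast hDX
  have hlogD : Real.log D ≤ 1 + Real.log X := by
    have h1 : Real.log D ≤ Real.log (2 * X) := Real.log_le_log (by linarith) hDX'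
    rw [Real.log_mul (by norm_num) hX0.ne'] at h1
    have := Real.log_two_lt_d9
    linarith
  have hL0 : 0 ≤ Lone D := (hN3 K D hD h2 hK).1
  have hL : Lone D ≤ (X : ℝ) ^ η := by
    refine (hLone D hD).trans (le_trans ?_ hL2)
    apply mul_le_mul_of_nonneg_left _ hC.le
    linarith
  have hsD : √(D : ℝ) ≤ 2 * √(X : ℝ) := by
    rw [Real.sqrt_le_left (by positivity), mul_pow, Real.sq_sqrt hX0.le]
    linarith
  have hXη : 0 < (X : ℝ) ^ η := Real.rpow_pos_of_pos hX0 _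
  have hX4η : 0 < (X : ℝ) ^ (4 * η) := Real.rpow_pos_of_pos hX0 _
  have hZ0 : (0 : ℝ) ≤ Z := Nat.cast_nonneg _
  -- the inequality for h
  have h1 : h * M ^ 2 ≤ 400 ^ k * (R * (2 * (2 * √(X : ℝ)) * (X : ℝ) ^ η *
      ((X : ℝ) ^ (4 * η) * (M + M ^ 2 * (√(X : ℝ) + Z / √(X : ℝ)) / X)))) := by
    have e400 : (400 : ℝ) ^ k = (20 ^ k) ^ 2 := by
      rw [← pow_mul, mul_comm, pow_mul]; norm_num
    calc h * M ^ 2 ≤ h * (20 ^ k * md) ^ 2 := by gcongr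
      _ = 400 ^ k * (h * md ^ 2) := by rw [e400]; ring
      _ ≤ 400 ^ k * (R * (2 * √(D : ℝ) * Lone D * sd)) := by gcongr
      _ ≤ _ := by gcongr
  have h3 : h ≤ 400 ^ k * R * 4 * (X : ℝ) ^ η * (X : ℝ) ^ (4 * η) *
      (√(X : ℝ) / M + 1 + Z / X) := by
    have hM2 : 0 < M ^ 2 := by positivity
    refine le_of_mul_le_mul_right (h1.trans (le_of_eq ?_)) hM2
    have e1 : (√(X : ℝ) / M + 1 + Z / X) * M ^ 2 =
        √(X : ℝ) * (M + M ^ 2 * (√(X : ℝ) + Z / √(X : ℝ)) / X) := by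
      have e2 : √(X : ℝ) * (√(X : ℝ) + Z / √(X : ℝ)) = X + Z := by
        rw [mul_add, hXX]
        congr 1
        field_simp
      have e3 : √(X : ℝ) * (M + M ^ 2 * (√(X : ℝ) + Z / √(X : ℝ)) / X) =
          √(X : ℝ) * M + M ^ 2 * (√(X : ℝ) * (√(X : ℝ) + Z / √(X : ℝ))) / X := by ring
      rw [e3, e2]
      field_simp
      ring
    calc 400 ^ k * (R * (2 * (2 * √(X : ℝ)) * (X : ℝ) ^ η *
          ((X : ℝ) ^ (4 * η) * (M + M ^ 2 * (√(X : ℝ) + Z / √(X : ℝ)) / X))))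
        = 400 ^ k * R * 4 * (X : ℝ) ^ η * (X : ℝ) ^ (4 * η) *
          (√(X : ℝ) * (M + M ^ 2 * (√(X : ℝ) + Z / √(X : ℝ)) / X)) := by ring
      _ = _ := by rw [← e1]; ring
  have h4' : √(X : ℝ) / M ≤ (X : ℝ) ^ (θ + η) := by
    rw [div_le_iff₀ hM0]
    calc √(X : ℝ) = (X : ℝ) ^ (1 / 2 : ℝ) := Real.sqrt_eq_rpow _
      _ ≤ (X : ℝ) ^ ((θ + η) + (c * (σ - 1 / a) - η)) :=
          Real.rpow_le_rpow_of_exponent_le hXr (by linarith)
      _ = (X : ℝ) ^ (θ + η) * (X : ℝ) ^ (c * (σ - 1 / a) - η) := Real.rpow_add hX0 _ _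
      _ ≤ _ := by gcongr
  have h5 : (1 : ℝ) ≤ (X : ℝ) ^ (θ + η) := Real.one_le_rpow hXr (by linarith)
  have h6 : (Z : ℝ) / X ≤ (X : ℝ) ^ (θ + η) := by
    rw [div_le_iff₀ hX0]
    calc (Z : ℝ) ≤ (X : ℝ) ^ c := hZ
      _ ≤ (X : ℝ) ^ ((θ + η) + 1) := Real.rpow_le_rpow_of_exponent_le hXr (by linarith)
      _ = (X : ℝ) ^ (θ + η) * X := by rw [Real.rpow_add hX0, Real.rpow_one]
  calc h ≤ 400 ^ k * R * 4 * (X : ℝ) ^ η * (X : ℝ) ^ (4 * η) * (√(X : ℝ) / M + 1 + Z / X) := h3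
    _ ≤ (X : ℝ) ^ η * R * 4 * (X : ℝ) ^ η * (X : ℝ) ^ (4 * η) *
        ((X : ℝ) ^ (θ + η) + (X : ℝ) ^ (θ + η) + (X : ℝ) ^ (θ + η)) := by gcongr
    _ = ((X : ℝ) ^ η * (X : ℝ) ^ η * (X : ℝ) ^ (4 * η) * (X : ℝ) ^ (θ + η)) * 12 * R := by ring
    _ ≤ ((X : ℝ) ^ η * (X : ℝ) ^ η * (X : ℝ) ^ (4 * η) * (X : ℝ) ^ (θ + η)) * (X : ℝ) ^ η * R := by
        gcongr
    _ = (X : ℝ) ^ (θ + 8 * η) * R := by
        rw [← Real.rpow_add hX0, ← Real.rpow_add hX0, ← Real.rpow_add hX0, ← Real.rpow_add hX0]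
        congr 2
        ring

/-- few exceptional discriminants in a dyadic interval -/
theorem count_bad (hAVG : E_AVG) (hPAR : E_PAR) (hNUM : E_NUM) (hN3 : P_N3) (hN3a : P_N3a)
    (hPV' : P_PV) (P : Set ℕ) (σ : ℝ) (hσ0 : 0 < σ) (hσ1 : σ ≤ 1) (hP : Many P σ) (a : ℝ)
    (ha : 1 < a * σ) (c θ : ℝ) (hc1 : 1 / 2 ≤ c) (hc2 : c ≤ 3 / 2) (hθ0 : 0 ≤ θ)
    (hθ : 1 / 2 - c * (σ - 1 / a) ≤ θ) (hcθ : c - 1 ≤ θ) (ε : ℝ)
    (hε : 0 < ε) : ∃ δ : ℝ, 0 < δ ∧ δ ≤ 1 / 2 ∧ ∃ X0 : ℕ, ∀ X ≥ X0,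
    (((Finset.Ioc X (2 * X)).filter (fun D => IsFund D ∧
      BadS P a c (θ + ε) X D)).card : ℝ) ≤ (X : ℝ) ^ (1 - δ) := by
  obtain ⟨C, hC, hLone⟩ := Lone_le hN3a
  obtain ⟨C', hC', hPV⟩ := hPV'
  have ha0 : 0 < a := by
    by_contra h
    push Not at h
    nlinarith
  set δ0 : ℝ := (a * σ - 1) / (32 * a) with hδ0
  have hδ0pos : 0 < δ0 := div_pos (by linarith) (by linarith)
  have hδ0le : δ0 ≤ 1 / 32 := by
    rw [hδ0, div_le_div_iff₀ (by linarith) (by norm_num)]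
    nlinarith
  set η : ℝ := min (ε / 20) (δ0 / 4) with hη
  have hηpos : 0 < η := lt_min (by positivity) (by positivity)
  have hη1 : η ≤ ε / 20 := min_le_left _ _
  have hη2 : η ≤ δ0 / 4 := min_le_right _ _
  refine ⟨η / 2, by positivity, by linarith, ?_⟩
  rw [← Filter.eventually_atTop]
  have hpar := hPAR P σ hσ0 hσ1 hP a c ha hc1 hc2 η 400 hηpos (by norm_num)
  have hlog1 := ERRh.ev_log (η / 2) (by positivity)
  have hc1 := ERRh.ev_const (η / 2) (by positivity) (max (4096 * C) 4096)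
  have hc2' := ERRh.ev_const (η / 2) (by positivity) (max (2 * C) 48)
  have hc3 := ERRh.ev_const (1 / 8) (by norm_num) (3 / 2 * C')
  have hlog2 := ERRh.ev_log (1 / 8) (by norm_num)
  filter_upwards [hpar, hlog1, hc1, hc2', hc3, hlog2, eventually_ge_atTop 1] with X hX hl1 hk1 hk2
    hk3 hl2 hX1
  obtain ⟨q1, q2, q3, q4, q5, q6, q7, q8, q9, -⟩ := hX
  have hXr : (1 : ℝ) ≤ X := by exact_mod_cast hX1
  have hX0 : (0 : ℝ) < X := by linarith
  have hlogX : 0 ≤ Real.log X := Real.log_natCast_nonneg X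
  set y := yS a X with hy
  set k := kS a c X with hk
  set Q := QQ P y with hQ
  set j := k / 4 with hj
  set m := Q.card / (2 * j) with hm
  set M : ℝ := (Q.card.choose k : ℝ) with hM
  set Z : ℕ := (2 * y) ^ k with hZ
  have hZ1 : 1 ≤ Z := Nat.one_le_pow _ _ (by omega)
  have hZr : (Z : ℝ) ≤ (X : ℝ) ^ c := by
    rw [hZ, Nat.cast_pow]
    exact q2
  have hlogZ : Real.log Z ≤ 3 / 2 * Real.log X := by
    have e1 : Real.log Z = (k : ℝ) * Real.log (2 * y) := by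
      rw [hZ]
      push_cast
      rw [Real.log_pow]
    rw [e1]
    exact q9.trans (mul_le_mul_of_nonneg_right hc2 hlogX)
  have hhalf : (X : ℝ) ^ (η / 2) * (X : ℝ) ^ (η / 2) = (X : ℝ) ^ η := by
    rw [← Real.rpow_add hX0]; congr 1; ring
  have hXh : 0 < (X : ℝ) ^ (η / 2) := Real.rpow_pos_of_pos hX0 _
  have hXη : 0 < (X : ℝ) ^ η := Real.rpow_pos_of_pos hX0 _
  have hXh1 : 1 ≤ (X : ℝ) ^ (η / 2) := Real.one_le_rpow hXr (by positivity)
  have hXhη : (X : ℝ) ^ (η / 2) ≤ (X : ℝ) ^ η := Real.rpow_le_rpow_of_exponent_le hXr (by linarith)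
  have hPm : ∀ p ∈ Q, p.Prime ∧ p ≠ 2 ∧ p ≤ 2 * y := by
    intro p hp
    obtain ⟨h1, h2, h3, h4⟩ := QQ_mem q1 hp
    exact ⟨h1, h2, h4⟩
  have hj2 : 2 ≤ j := by omega
  -- the two exceptional sets for each residue class
  let Low : ℕ → Finset ℕ := fun r => (DD 2 r X 1).filter
    (fun D : ℕ => ∑ p ∈ Q, (1 + ((jacobiSym (D : ℤ) p : ℤ) : ℝ)) < (j : ℝ) * m / 2)
  let High : ℕ → Finset ℕ := fun r => (DD 2 r X 1).filter
    (fun D : ℕ => (X : ℝ) ^ (4 * η) * (((Q.powersetCard k).card : ℝ) +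
      ((Q.powersetCard k).card : ℝ) ^ 2 * (√(X : ℝ) + Z / √(X : ℝ)) / X) <
        SD D (Q.powersetCard k) (fun _ => 1))
  have hcardS : ((Q.powersetCard k).card : ℝ) = M := by rw [Finset.card_powersetCard, hM]
  have hcardS0 : 0 < (Q.powersetCard k).card := by
    rw [Finset.card_powersetCard]
    exact Nat.choose_pos (by omega)
  -- cardinality of Low
  have hLow : ∀ r < Qz 2, ((Low r).card : ℝ) ≤ 2 * (X : ℝ) ^ (1 - η) := by
    intro r hr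
    have h1 := low_set C' hC' hPV r X m j (2 * y) hr Q hPm q7 (by
      rw [hm]
      exact Nat.mul_div_le _ _) (by omega)
    refine h1.trans ?_
    have h16 : (16 : ℝ) ^ j ≤ (X : ℝ) ^ η := by
      calc (16 : ℝ) ^ j ≤ 400 ^ j := pow_le_pow_left₀ (by norm_num) (by norm_num) _
        _ ≤ 400 ^ k := pow_le_pow_right₀ (by norm_num) (by omega)
        _ ≤ _ := q3
    have hmj : X / (m : ℝ) ^ j ≤ (X : ℝ) ^ (1 - δ0) := by
      have hmjpos : 0 < (m : ℝ) ^ j := lt_of_lt_of_le (Real.rpow_pos_of_pos hX0 _) q8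
      rw [div_le_iff₀ hmjpos]
      calc (X : ℝ) = (X : ℝ) ^ (1 - δ0) * (X : ℝ) ^ δ0 := by
            rw [← Real.rpow_add hX0]
            rw [show (1 - δ0 + δ0 : ℝ) = 1 by ring, Real.rpow_one]
        _ ≤ (X : ℝ) ^ (1 - δ0) * (m : ℝ) ^ j := by gcongr
    have hYj : (((2 * y : ℕ) : ℝ)) ^ j ≤ (X : ℝ) ^ (3 / 8 : ℝ) := by
      have h2 : ((((2 * y : ℕ) : ℝ)) ^ j) ^ 4 ≤ (X : ℝ) ^ (3 / 2 : ℝ) := by
        rw [← pow_mul]
        refine le_trans (le_trans ?_ q2) (Real.rpow_le_rpow_of_exponent_le hXr hc2)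
        have h2y : (1 : ℝ) ≤ ((2 * y : ℕ) : ℝ) := by
          have : 1 ≤ 2 * y := by omega
          exact_mod_cast this
        exact pow_le_pow_right₀ h2y (by omega)
      have h3 : (0 : ℝ) ≤ ((2 * y : ℕ) : ℝ) ^ j := by positivity
      calc (((2 * y : ℕ) : ℝ)) ^ j = (((((2 * y : ℕ) : ℝ)) ^ j) ^ 4) ^ (1 / 4 : ℝ) := by
            rw [← Real.rpow_natCast ((((2 * y : ℕ) : ℝ)) ^ j) 4, ← Real.rpow_mul h3]
            norm_num
        _ ≤ ((X : ℝ) ^ (3 / 2 : ℝ)) ^ (1 / 4 : ℝ) :=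
            Real.rpow_le_rpow (by positivity) h2 (by norm_num)
        _ = (X : ℝ) ^ (3 / 8 : ℝ) := by
            rw [← Real.rpow_mul hX0.le]
            norm_num
    have hjl : (2 * j : ℝ) * Real.log ((2 * y : ℕ) : ℝ) ≤ 3 / 2 * Real.log X := by
      refine le_trans ?_ (q9.trans (mul_le_mul_of_nonneg_right hc2 hlogX))
      have h2 : 0 ≤ Real.log ((2 * y : ℕ) : ℝ) := Real.log_natCast_nonneg _
      have h3 : (2 * j : ℝ) ≤ k := by
        have : 2 * j ≤ k := by omega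
        exact_mod_cast this
      have h5 : ((2 * y : ℕ) : ℝ) = 2 * y := by push_cast; ring
      rw [h5] at h2 ⊢
      exact mul_le_mul_of_nonneg_right h3 h2
    have hjl0 : 0 ≤ (2 * j : ℝ) * Real.log ((2 * y : ℕ) : ℝ) := by
      have h2 : 0 ≤ Real.log ((2 * y : ℕ) : ℝ) := Real.log_natCast_nonneg _
      positivity
    have hsec : C' * ((2 * y : ℕ) : ℝ) ^ j * (2 * j * Real.log ((2 * y : ℕ) : ℝ)) ≤
        (X : ℝ) ^ (1 - δ0) := by
      calc C' * ((2 * y : ℕ) : ℝ) ^ j * (2 * j * Real.log ((2 * y : ℕ) : ℝ))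
          ≤ C' * (X : ℝ) ^ (3 / 8 : ℝ) * (3 / 2 * (X : ℝ) ^ (1 / 8 : ℝ)) := by
            have h6 : Real.log X ≤ (X : ℝ) ^ (1 / 8 : ℝ) := by linarith
            have h7 : (2 * j : ℝ) * Real.log ((2 * y : ℕ) : ℝ) ≤ 3 / 2 * (X : ℝ) ^ (1 / 8 : ℝ) :=
              hjl.trans (by gcongr)
            gcongr
        _ = (3 / 2 * C') * (X : ℝ) ^ (3 / 8 : ℝ) * (X : ℝ) ^ (1 / 8 : ℝ) := by ring
        _ ≤ (X : ℝ) ^ (1 / 8 : ℝ) * (X : ℝ) ^ (3 / 8 : ℝ) * (X : ℝ) ^ (1 / 8 : ℝ) := by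
            gcongr
        _ = (X : ℝ) ^ (1 / 8 + 3 / 8 + 1 / 8 : ℝ) := by
            rw [← Real.rpow_add hX0, ← Real.rpow_add hX0]
        _ ≤ _ := Real.rpow_le_rpow_of_exponent_le hXr (by linarith)
    calc (16 : ℝ) ^ j * (X / (m : ℝ) ^ j +
          C' * ((2 * y : ℕ) : ℝ) ^ j * (2 * j * Real.log ((2 * y : ℕ) : ℝ)))
        ≤ (X : ℝ) ^ η * ((X : ℝ) ^ (1 - δ0) + (X : ℝ) ^ (1 - δ0)) := by
          have h7 : 0 ≤ C' * ((2 * y : ℕ) : ℝ) ^ j * (2 * j * Real.log ((2 * y : ℕ) : ℝ)) := by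
            positivity
          gcongr
      _ = 2 * (X : ℝ) ^ (η + (1 - δ0)) := by rw [Real.rpow_add hX0]; ring
      _ ≤ 2 * (X : ℝ) ^ (1 - η) := by
          have := Real.rpow_le_rpow_of_exponent_le hXr (show η + (1 - δ0) ≤ 1 - η by linarith)
          linarith
  -- cardinality of High
  have hHigh : ∀ r < Qz 2, ((High r).card : ℝ) ≤ (X : ℝ) ^ (1 - η) := by
    intro r hr
    have hS : ∀ s ∈ Q.powersetCard k, (∀ p ∈ s, p.Prime) ∧ s.card = k ∧ prodS s ≤ Z := by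
      intro s hs
      obtain ⟨hs1, hs2⟩ := Finset.mem_powersetCard.1 hs
      refine ⟨fun p hp => (hPm p (hs1 hp)).1, hs2, ?_⟩
      unfold prodS
      rw [hZ, ← hs2]
      exact Finset.prod_le_pow_card _ _ _ fun p hp => (hPm p (hs1 hp)).2.2
    have h1 := high_card hAVG r X k Z hr hX1 hZ1 (Q.powersetCard k) hS ((X : ℝ) ^ (4 * η))
      (Real.rpow_pos_of_pos hX0 _) hcardS0
    refine h1.trans ?_
    rw [div_le_iff₀ (Real.rpow_pos_of_pos hX0 _), ← Real.rpow_add hX0]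
    have h8 : (8 : ℝ) ^ k ≤ (X : ℝ) ^ η :=
      (pow_le_pow_left₀ (by norm_num) (by norm_num) _).trans q3
    have h4096 : (4096 : ℝ) ≤ (X : ℝ) ^ (η / 2) := (le_max_right _ _).trans hk1
    have hlz : 2 + Real.log Z ≤ 2 * (1 + Real.log X) := by linarith
    calc 1024 * 8 ^ k * (2 + Real.log Z) * X
        ≤ 1024 * 8 ^ k * (2 * (1 + Real.log X)) * X := by gcongr
      _ = 2048 * 8 ^ k * (1 + Real.log X) * X := by ring
      _ ≤ 4096 * 8 ^ k * (1 + Real.log X) * X := by gcongr; norm_num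
      _ ≤ (X : ℝ) ^ (η / 2) * (X : ℝ) ^ η * (X : ℝ) ^ (η / 2) * X := by gcongr
      _ = (X : ℝ) ^ (η / 2 + η + η / 2 + 1) := by
          rw [Real.rpow_add hX0 _ 1, Real.rpow_one, Real.rpow_add hX0, Real.rpow_add hX0]
      _ ≤ _ := Real.rpow_le_rpow_of_exponent_le hXr (by linarith)
  -- covering
  have hcover : ((Finset.Ioc X (2 * X)).filter (fun D => IsFund D ∧
      BadS P a c (θ + ε) X D)) ⊆ (Finset.range 16).biUnion (fun r => Low r ∪ High r) := by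
    intro D hD
    obtain ⟨hD1, hD2, hD3⟩ := Finset.mem_filter.1 hD
    obtain ⟨hDa, hDb⟩ := Finset.mem_Ioc.1 hD1
    rw [Finset.mem_biUnion]
    refine ⟨D % 16, Finset.mem_range.2 (Nat.mod_lt _ (by norm_num)), ?_⟩
    have hDD : D ∈ DD 2 (D % 16) X 1 := by
      unfold DD
      rw [Finset.mem_filter, Finset.mem_Ioc, floor_two, Qz_two]
      exact ⟨⟨hDa, hDb⟩, rfl⟩
    by_contra hcon
    rw [Finset.mem_union, not_or] at hcon
    obtain ⟨hc1', hc2'⟩ := hcon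
    have hlow' : (j : ℝ) * m / 2 ≤ ∑ p ∈ Q, (1 + ((jacobiSym (D : ℤ) p : ℤ) : ℝ)) := by
      by_contra h
      exact hc1' (Finset.mem_filter.2 ⟨hDD, not_le.1 h⟩)
    have hhigh' : SD D (Q.powersetCard k) (fun _ => 1) ≤ (X : ℝ) ^ (4 * η) *
        (((Q.powersetCard k).card : ℝ) + ((Q.powersetCard k).card : ℝ) ^ 2 *
          (√(X : ℝ) + Z / √(X : ℝ)) / X) := by
      by_contra h
      exact hc2' (Finset.mem_filter.2 ⟨hDD, not_le.1 h⟩)
    rw [hcardS] at hhigh'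
    have hlow5 : ((Q.card : ℕ) : ℝ) / 5 ≤ ∑ p ∈ Q, (1 + ((jacobiSym (D : ℤ) p : ℤ) : ℝ)) := by
      refine le_trans ?_ hlow'
      have h1 : Q.card < 2 * j * (m + 1) := by
        rw [hm]
        exact Nat.lt_mul_div_succ _ (by omega)
      have h2 : (Q.card : ℝ) < 2 * j * (m + 1) := by exact_mod_cast h1
      have h3 : 80 * j ≤ Q.card := by omega
      have h4' : (80 : ℝ) * j ≤ Q.card := by exact_mod_cast h3
      linarith
    have hnb := not_bad hNUM hN3 P a c σ θ η C hC hLone hθ0 hθ hcθ hηpos X D Z hD2 hDb hX1 q1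
      hZr q3 q4 q6 (by
        have h2C : 2 * C ≤ (X : ℝ) ^ (η / 2) := (le_max_left _ _).trans hk2
        have h1 : 2 + Real.log X ≤ 2 * (1 + Real.log X) := by linarith
        calc C * (2 + Real.log X) ≤ C * (2 * (1 + Real.log X)) := by gcongr
          _ = (2 * C) * (1 + Real.log X) := by ring
          _ ≤ (X : ℝ) ^ (η / 2) * (X : ℝ) ^ (η / 2) := by gcongr
          _ = _ := hhalf) (by
        have h48 : (48 : ℝ) ≤ (X : ℝ) ^ (η / 2) := (le_max_right _ _).trans hk2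
        linarith) hlow5 hhigh'
    apply hnb
    obtain ⟨K, i1, i2, g1, g2, g3⟩ := hD3
    refine ⟨K, i1, i2, g1, g2, fun hcon => g3 (hcon.trans ?_)⟩
    have : (X : ℝ) ^ (θ + 8 * η) ≤ (X : ℝ) ^ (θ + ε) :=
      Real.rpow_le_rpow_of_exponent_le hXr (by linarith)
    gcongr
  have hfin : ((((Finset.range 16).biUnion (fun r => Low r ∪ High r)).card : ℕ) : ℝ) ≤
      48 * (X : ℝ) ^ (1 - η) := by
    have h1 : (((Finset.range 16).biUnion (fun r => Low r ∪ High r)).card : ℝ) ≤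
        ∑ r ∈ Finset.range 16, ((Low r ∪ High r).card : ℝ) := by
      exact_mod_cast Finset.card_biUnion_le
    refine h1.trans ?_
    have h2 : ∀ r ∈ Finset.range 16, ((Low r ∪ High r).card : ℝ) ≤ 3 * (X : ℝ) ^ (1 - η) := by
      intro r hr
      have hr' : r < Qz 2 := by rw [Qz_two]; exact Finset.mem_range.1 hr
      have h3 : ((Low r ∪ High r).card : ℝ) ≤ (Low r).card + (High r).card := by
        exact_mod_cast Finset.card_union_le _ _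
      have := hLow r hr'
      have := hHigh r hr'
      linarith
    refine (Finset.sum_le_sum h2).trans ?_
    rw [Finset.sum_const, Finset.card_range, nsmul_eq_mul]
    push_cast
    linarith
  have hcard : (((Finset.Ioc X (2 * X)).filter (fun D => IsFund D ∧
      BadS P a c (θ + ε) X D)).card : ℝ) ≤
      ((((Finset.range 16).biUnion (fun r => Low r ∪ High r)).card : ℕ) : ℝ) := by
    exact_mod_cast Finset.card_le_card hcover
  refine hcard.trans (hfin.trans ?_)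
  have h48 : (48 : ℝ) ≤ (X : ℝ) ^ (η / 2) := (le_max_right _ _).trans hk2
  calc 48 * (X : ℝ) ^ (1 - η) ≤ (X : ℝ) ^ (η / 2) * (X : ℝ) ^ (1 - η) := by gcongr
    _ = (X : ℝ) ^ (1 - η / 2) := by
        rw [← Real.rpow_add hX0]
        congr 1
        ring

theorem reach_mono {P : Set ℕ} {K : Type} [Field K] [NumberField K] {B B' n n' : ℝ}
    (hB : B ≤ B') (hn : n ≤ n') : Reach P K B n ⊆ Reach P K B' n' := by
  rintro C ⟨L, h1, h2, h3⟩
  exact ⟨L, fun 𝔭 h𝔭 => ⟨(h1 𝔭 h𝔭).1, (h1 𝔭 h𝔭).2.1, (h1 𝔭 h𝔭).2.2.1,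
    (h1 𝔭 h𝔭).2.2.2.trans hB⟩, h2.trans hn, h3⟩

end Pool.Agent.N71.SP
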