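import Pool.Agent.R345.IXFin
import Pool.Agent.R345.IYFin

/-!
# Project SP: class groups and the small primes of an arbitrary sparse set (statements)

`P` is any set of primes with at least `y ^ σ` elements in `(y, 2 y]` for large `y`.
-/

set_option autoImplicit false

namespace Pool.Agent.N71.SP

open Finset Filter NumberField Pool.Agent.H38R2.CG Pool.Agent.H38R2.CG2 Pool.Agent.H38R2.CG3
open scoped Classical

/-- The primes of `P` in the interval `(y, 2 y]`. -/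
noncomputable def QQ (P : Set ℕ) (y : ℕ) : Finset ℕ :=
  (Finset.Ioc y (2 * y)).filter (fun p => p.Prime ∧ p ∈ P)

/-- `y = ⌊(log X) ^ a / 4⌋` -/
noncomputable def yS (a : ℝ) (X : ℕ) : ℕ := ⌊(Real.log X) ^ a / 4⌋₊

/-- `k`, the number of factors, with `(2 y) ^ k ≤ X ^ c` -/
noncomputable def kS (a c : ℝ) (X : ℕ) : ℕ := ⌊c * Real.log X / Real.log (2 * yS a X)⌋₊

/-- The ideal classes that are products of at most `n` classes of prime ideals whose norm is a prime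
number of `P` and at most `B`. -/
def Reach (P : Set ℕ) (K : Type) [Field K] [NumberField K] (B n : ℝ) : Set (ClassGroup (𝓞 K)) :=
  {C | ∃ L : Multiset (nonZeroDivisors (Ideal (𝓞 K))),
    (∀ 𝔭 ∈ L, (𝔭 : Ideal (𝓞 K)).IsPrime ∧ (Ideal.absNorm (𝔭 : Ideal (𝓞 K))).Prime ∧
      Ideal.absNorm (𝔭 : Ideal (𝓞 K)) ∈ P ∧ ((Ideal.absNorm (𝔭 : Ideal (𝓞 K)) : ℕ) : ℝ) ≤ B) ∧
    (L.card : ℝ) ≤ n ∧ (L.map (fun 𝔭 => ClassGroup.mk0 𝔭)).prod = C}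

/-- the condition on `P` -/
def Many (P : Set ℕ) (σ : ℝ) : Prop := ∃ y0 : ℕ, ∀ y ≥ y0, (y : ℝ) ^ σ ≤ (QQ P y).card

/-! ## Part A: all but `O(X^(1-δ))` radicands -/

/-- AVG: the average over `D` of the near collision sum, for products up to any bound `Z`
(adapt `R345/IXAvg.lean`: `avg_one`, `avg_SD`). -/
def E_AVG : Prop := ∀ r X k Z : ℕ, r < Qz 2 → 1 ≤ X → 1 ≤ Z → ∀ S : Finset (Finset ℕ),
  (∀ s ∈ S, (∀ p ∈ s, p.Prime) ∧ s.card = k ∧ prodS s ≤ Z) →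
  ∑ D ∈ DD 2 r X 1, SD D S (fun _ => 1) ≤
    1024 * 8 ^ k * (2 + Real.log Z) *
      (X * S.card + (√(X : ℝ) + Z / √(X : ℝ)) * (S.card : ℝ) ^ 2)

/-- PAR: sizes of the parameters (adapt `R345/IXPar.lean`: `par1`, `params`). -/
def E_PAR : Prop := ∀ (P : Set ℕ) (σ : ℝ), 0 < σ → σ ≤ 1 → Many P σ →
  ∀ a c : ℝ, 1 < a * σ → 1 / 2 ≤ c → c ≤ 3 / 2 → ∀ ε B : ℝ, 0 < ε → 1 ≤ B →
  ∀ᶠ X : ℕ in atTop,
    2 ≤ yS a X ∧ ((2 * yS a X : ℕ) : ℝ) ^ (kS a c X) ≤ (X : ℝ) ^ c ∧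
    B ^ (kS a c X) ≤ (X : ℝ) ^ ε ∧
    20 * kS a c X ≤ (QQ P (yS a X)).card ∧ 8 ≤ kS a c X ∧
    (X : ℝ) ^ (c * (σ - 1 / a) - ε) ≤ ((QQ P (yS a X)).card.choose (kS a c X) : ℝ) ∧
    1 ≤ (QQ P (yS a X)).card / (2 * (kS a c X / 4)) ∧
    (X : ℝ) ^ ((a * σ - 1) / (32 * a)) ≤
      (((QQ P (yS a X)).card / (2 * (kS a c X / 4)) : ℕ) : ℝ) ^ (kS a c X / 4) ∧
    (kS a c X : ℝ) * Real.log (2 * yS a X) ≤ c * Real.log X ∧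
    ∀ d : ℝ, (X : ℝ) / 4 ≤ d → d ≤ 2 * X → 2 * (yS a X : ℝ) ≤ (Real.log d) ^ a ∧
      (kS a c X : ℝ) ≤ 3 / 2 * (Real.log d / Real.log (Real.log d))

/-- NUM: the number of classes reached (adapt `R345/IXNum.lean`: `reach_bound`). -/
def E_NUM : Prop := ∀ (P : Set ℕ) (K : Type) [Field K] [NumberField K] (D : ℕ),
  IsFund D → Module.finrank ℚ K = 2 → NumberField.discr K = (D : ℤ) →
  ∀ (Q : Finset ℕ) (B : ℝ), (∀ p ∈ Q, p.Prime ∧ p ≠ 2 ∧ p ∈ P ∧ (p : ℝ) ≤ B) → ∀ k : ℕ,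
    (Nat.card (ClassGroup (𝓞 K)) : ℝ) * (MD D (Q.powersetCard k) (fun _ => 1)) ^ 2 ≤
      ((Reach P K B k).ncard : ℝ) *
        (2 * √(D : ℝ) * Lone D * SD D (Q.powersetCard k) (fun _ => 1))

/-- the property of the radicand -/
def GoodS (P : Set ℕ) (a e : ℝ) (d : ℕ) : Prop :=
  ∀ (K : Type) [Field K] [NumberField K], Module.finrank ℚ K = 2 →
    (∃ x : K, x ^ 2 = (d : K)) →
    (Nat.card (ClassGroup (𝓞 K)) : ℝ) ≤ (d : ℝ) ^ e *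
      ((Reach P K ((Real.log d) ^ a) (3 / 2 * (Real.log d / Real.log (Real.log d)))).ncard : ℝ)

/-- the final statement of part A -/
def E_A : Prop := ∀ (P : Set ℕ) (σ : ℝ), 0 < σ → σ ≤ 1 → Many P σ →
  ∀ a : ℝ, 1 < a * σ → ∀ ε : ℝ, 0 < ε → ∃ δ C : ℝ, 0 < δ ∧ 0 < C ∧
    ∀ X : ℕ, (((Finset.Icc 2 X).filter (fun d => Squarefree d ∧
      ¬ GoodS P a (max 0 ((2 - a * (2 * σ - 1)) / (2 * (a * (1 + σ) - 1))) + ε) d)).card : ℝ) ≤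
        C * (X : ℝ) ^ (1 - δ)

/-! ## Part B: very few exceptions -/

/-- bad `f` for a set `Q` of primes -/
def BadQ (Q : Finset ℕ) (M f : ℕ) : Prop := ∃ ψ : DirichletCharacter ℂ M, ¬ (ψ = 1 ∧ f = 1) ∧
  (9 / 10 : ℝ) * Q.card < ‖∑ p ∈ Q, ψ (p : ZMod M) * ((jacobiSym (p : ℤ) f : ℤ) : ℂ)‖

/-- CC5: number of bad `f` for an arbitrary set of primes in `(y, 2 y]` (adapt
`H38R2/CG/CC5.lean`). -/
def E_CC5 : Prop := ∀ M : ℕ, 1 ≤ M → ∃ C : ℝ, 0 < C ∧ ∃ y0 : ℕ, ∀ y ≥ y0, ∀ Q : Finset ℕ,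
  Q ⊆ PP y → Q.Nonempty → ∀ i : ℕ, 1 ≤ i →
  (((Finset.Icc 1 ⌊((2 * y : ℝ)) ^ ((i : ℝ) / 2)⌋₊).filter
    (fun f => Squarefree f ∧ f.Coprime (2 * M) ∧ BadQ Q M f)).card : ℝ) ≤
    C * (i.factorial : ℝ) * (3 * y / Q.card) ^ i

/-- LOW: very few discriminants have few split primes in `Q` (adapt `R345/IYLow.lean`:
`low_card`). -/
def E_LOW : Prop := ∃ C : ℝ, 0 < C ∧ ∃ y0 : ℕ, ∀ y ≥ y0, ∀ Q : Finset ℕ, Q ⊆ PP y → Q.Nonempty →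
  ∀ i : ℕ, 1 ≤ i → ∀ X : ℕ, (2 * X : ℝ) ≤ ((2 * y : ℝ)) ^ ((i : ℝ) / 2) →
    (((Finset.Ioc X (2 * X)).filter (fun D => IsFund D ∧
      ∑ p ∈ Q, (1 + ((jacobiSym (D : ℤ) p : ℤ) : ℝ)) < (Q.card : ℝ) / 20)).card : ℝ) ≤
      C * (i.factorial : ℝ) * (3 * y / Q.card) ^ i

/-- number of factors in part B -/
noncomputable def kT (a : ℝ) (X : ℕ) : ℕ := kS a (1 / 2) X - 1
/-- the moment used for the large sieve -/
noncomputable def iT (a : ℝ) (X : ℕ) : ℕ := ⌈2 * Real.log (2 * X) / Real.log (2 * yS a X)⌉₊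

/-- PAR2: parameters of part B (adapt `R345/IYPar.lean`: `params_i`, `params_k`). -/
def E_PAR2 : Prop := ∀ (P : Set ℕ) (σ : ℝ), 0 < σ → σ ≤ 1 → Many P σ →
  ∀ a : ℝ, 1 < a * σ → ∀ ε C : ℝ, 0 < ε → 0 < C → ∀ᶠ X : ℕ in atTop,
    1 ≤ iT a X ∧ (2 * X : ℝ) ≤ ((2 * yS a X : ℝ)) ^ ((iT a X : ℝ) / 2) ∧
    C * ((iT a X).factorial : ℝ) * (3 * yS a X / (QQ P (yS a X)).card) ^ (iT a X) ≤
      (X : ℝ) ^ (2 * (1 - σ) + 2 / a + ε) ∧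
    4 * ((2 * yS a X) ^ (kT a X) * (2 * yS a X) ^ (kT a X)) < X ∧
    80 * kT a X ≤ (QQ P (yS a X)).card ∧
    (X : ℝ) ^ ((σ - 1 / a) / 2 - ε) ≤ ((QQ P (yS a X)).card.choose (kT a X) : ℝ)

/-- the property of the radicand, part B -/
def GoodT (P : Set ℕ) (a e : ℝ) (d : ℕ) : Prop :=
  ∀ (K : Type) [Field K] [NumberField K], Module.finrank ℚ K = 2 →
    (∃ x : K, x ^ 2 = (d : K)) →
    (Nat.card (ClassGroup (𝓞 K)) : ℝ) ≤ (d : ℝ) ^ e *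
      ((Reach P K ((Real.log d) ^ a) (Real.log d / Real.log (Real.log d))).ncard : ℝ)

/-- the final statement of part B -/
def E_B : Prop := ∀ (P : Set ℕ) (σ : ℝ), 0 < σ → σ ≤ 1 → Many P σ →
  ∀ a : ℝ, 1 < a * σ → ∀ ε : ℝ, 0 < ε → ∃ C : ℝ, 0 < C ∧
    ∀ X : ℕ, (((Finset.Icc 2 X).filter (fun d => Squarefree d ∧
      ¬ GoodT P a ((1 - σ) / 2 + 1 / (2 * a) + ε) d)).card : ℝ) ≤
        C * (X : ℝ) ^ (2 * (1 - σ) + 2 / a + ε)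

end Pool.Agent.N71.SP
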